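import Pool.Agent.H76.LUD.Targets

/-!
# The digits `av` are computable in the initial segments
-/

set_option autoImplicit false

namespace Pool.Agent.H54.LUD

open Pool.Agent.H69 Pool.Agent.H81.TM Pool.Agent.H76.LUD
open Encodable
open Nat.Partrec (Code)
open Nat.Partrec.Code (evaln)

/-- The first marker read off from a list. -/
def avcF (l' : List Bool) (s : ℕ) : Option ℕ :=
  ((List.range (s + 1)).filterMap (fun n => if l'[n]? = some true then some n else none)).head?

/-- The halting test read off from a list. -/
def avcH (l : List Bool) (j s : ℕ) : Bool :=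
  (((List.range (s + 1)).filterMap (fun t =>
    evaln s (Denumerable.ofNat Code j) (encode (l.take t)))).head?).isSome

/-- The digit read off from the lists. -/
def avcQ (l l' : List Bool) (s : ℕ) : Bool :=
  match avcF l' s with
  | none => false
  | some n => avcH l n.unpair.2 s

theorem avcF_prim : Primrec (fun p : List Bool × ℕ => avcF p.1 p.2) := by
  unfold avcF
  refine Primrec.list_head?.comp ?_
  refine Primrec.listFilterMap (f := fun p : List Bool × ℕ => List.range (p.2 + 1))
    (g := fun p n => if p.1[n]? = some true then some n else none) ?_ ?_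
  · exact Primrec.list_range.comp (Primrec.succ.comp Primrec.snd)
  · unfold Primrec₂
    have h1 : PrimrecPred (fun q : (List Bool × ℕ) × ℕ => q.1.1[q.2]? = some true) :=
      Primrec.eq.comp (Primrec.list_getElem?.comp (Primrec.fst.comp Primrec.fst) Primrec.snd)
        (Primrec.const (some true))
    exact Primrec.ite h1 (Primrec.option_some.comp Primrec.snd) (Primrec.const none)

theorem avcH_prim : Primrec (fun p : List Bool × ℕ × ℕ => avcH p.1 p.2.1 p.2.2) := by
  unfold avcH
  refine Primrec.option_isSome.comp (Primrec.list_head?.comp ?_)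
  refine Primrec.listFilterMap (f := fun p : List Bool × ℕ × ℕ => List.range (p.2.2 + 1))
    (g := fun p t => evaln p.2.2 (Denumerable.ofNat Code p.2.1) (encode (p.1.take t))) ?_ ?_
  · exact Primrec.list_range.comp (Primrec.succ.comp (Primrec.snd.comp Primrec.snd))
  · unfold Primrec₂
    have hx : Primrec (fun q : (List Bool × ℕ × ℕ) × ℕ => q.1) := Primrec.fst
    have h1 : Primrec (fun q : (List Bool × ℕ × ℕ) × ℕ => q.1.2.2) :=
      Primrec.snd.comp (Primrec.snd.comp hx)
    have h2 : Primrec (fun q : (List Bool × ℕ × ℕ) × ℕ => Denumerable.ofNat Code q.1.2.1) :=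
      (Primrec.ofNat Code).comp (Primrec.fst.comp (Primrec.snd.comp hx))
    have h3 : Primrec (fun q : (List Bool × ℕ × ℕ) × ℕ => encode (q.1.1.take q.2)) :=
      Primrec.encode.comp (Primrec.list_take.comp Primrec.snd (Primrec.fst.comp hx))
    exact Nat.Partrec.Code.primrec_evaln.comp (Primrec.pair (Primrec.pair h1 h2) h3)

theorem avcQ_prim : Primrec (fun p : List Bool × List Bool × ℕ => avcQ p.1 p.2.1 p.2.2) := by
  have hF : Primrec (fun p : List Bool × List Bool × ℕ => avcF p.2.1 p.2.2) :=
    avcF_prim.comp Primrec.snd
  have hG : Primrec₂ (fun (p : List Bool × List Bool × ℕ) (n : ℕ) =>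
      avcH p.1 n.unpair.2 p.2.2) := by
    unfold Primrec₂
    exact avcH_prim.comp (Primrec.pair (Primrec.fst.comp Primrec.fst) (Primrec.pair
      (Primrec.snd.comp (Primrec.unpair.comp Primrec.snd))
      (Primrec.snd.comp (Primrec.snd.comp Primrec.fst))))
  refine (Primrec.option_casesOn hF (Primrec.const false) hG).of_eq ?_
  intro p
  unfold avcQ
  cases avcF p.2.1 p.2.2 <;> rfl

theorem avc_find (l : List ℕ) (p : ℕ → Bool) :
    (l.filterMap (fun n => if p n = true then some n else none)).head? = l.find? p := by
  induction l with
  | nil => rfl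
  | cons a l ih =>
    by_cases h : p a = true
    · simp [h]
    · simp only [List.filterMap_cons, if_neg h, List.find?_cons]
      rw [ih]
      simp [h]

theorem avc_any {β : Type*} (l : List ℕ) (f : ℕ → Option β) :
    ((l.filterMap f).head?).isSome = l.any (fun t => (f t).isSome) := by
  induction l with
  | nil => rfl
  | cons a l ih =>
    cases h : f a with
    | none =>
      rw [List.filterMap_cons_none h, ih]
      simp [h]
    | some b =>
      rw [List.filterMap_cons_some h]
      simp [h]

theorem pf_AVC : T_AVC := by
  refine ⟨avcQ, avcQ_prim.to_comp, ?_⟩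
  intro x m s t hst
  have hF : avcF (pre m t) s = fm m s := by
    unfold avcF fm
    rw [← avc_find]
    congr 1
    apply List.filterMap_congr
    intro n hn
    rw [List.mem_range] at hn
    rw [pre_getElem? m (by omega : n < t)]
    simp
  have hH : ∀ j, avcH (pre x t) j s = hs x j s := by
    intro j
    unfold avcH hs
    rw [← avc_any]
    congr 2
    apply List.filterMap_congr
    intro n hn
    rw [List.mem_range] at hn
    rw [pre_take x (by omega : n ≤ t)]
  unfold avcQ av
  rw [hF]
  cases fm m s with
  | none => rfl
  | some n => exact hH _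

end Pool.Agent.H54.LUD
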