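import Pool.Agent.H76.LUD.Targets

/-!
# Constancy on a cone from continuity along a degree preserving map
-/

set_option autoImplicit false

namespace Pool.Agent.H54.LUD

open Pool.Agent.H69 Pool.Agent.H81.TM Pool.Agent.H76.LUD

theorem cst_leM_trans {x y z : ℕ → Bool} (h : LeM x y) (h' : LeM y z) : LeM x z := by
  obtain ⟨r, hr, h1⟩ := h
  obtain ⟨s, hs, h2⟩ := h'
  exact ⟨fun n => s (r n), hs.comp hr, fun n => by rw [h1, h2]⟩

theorem cst_eqM_equivalence : Equivalence EqM :=
  ⟨fun x => ⟨⟨id, Computable.id, fun _ => rfl⟩, ⟨id, Computable.id, fun _ => rfl⟩⟩,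
    fun h => ⟨h.2, h.1⟩,
    fun h h' => ⟨cst_leM_trans h.1 h'.1, cst_leM_trans h'.2 h.2⟩⟩

/-- The computable functions. -/
abbrev CstF : Type := {ρ : ℕ → ℕ // Computable ρ}

instance cst_countable : Countable CstF := by
  have h : ∀ ρ : CstF, ∃ c : Nat.Partrec.Code, c.eval = (ρ.1 : ℕ →. ℕ) := fun ρ =>
    Nat.Partrec.Code.exists_code.1 (Partrec.nat_iff.1 ρ.2)
  choose g hg using h
  have hinj : Function.Injective g := by
    intro a b hab
    have h1 : ((a.1 : ℕ →. ℕ)) = (b.1 : ℕ →. ℕ) := by rw [← hg a, ← hg b, hab]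
    refine Subtype.ext (funext fun n => ?_)
    have h2 := congrFun h1 n
    exact Part.some_injective h2
  exact hinj.countable

/-- Many-one equivalence by a given pair of functions. -/
def CstRel (p : CstF × CstF) : Set ((ℕ → Bool) × (ℕ → Bool)) :=
  {q | ∀ n, q.1 n = q.2 (p.1.1 n) ∧ q.2 n = q.1 (p.2.1 n)}

theorem cst_isClosed_rel (p : CstF × CstF) : IsClosed (CstRel p) := by
  have h : CstRel p = ⋂ n, ({q : (ℕ → Bool) × (ℕ → Bool) | q.1 n = q.2 (p.1.1 n)} ∩
      {q : (ℕ → Bool) × (ℕ → Bool) | q.2 n = q.1 (p.2.1 n)}) := by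
    ext q
    simp only [CstRel, Set.mem_ofPred_eq, Set.mem_iInter, Set.mem_inter_iff]
  rw [h]
  refine isClosed_iInter fun n => IsClosed.inter ?_ ?_
  · exact isClosed_eq ((continuous_apply n).comp continuous_fst)
      ((continuous_apply _).comp continuous_snd)
  · exact isClosed_eq ((continuous_apply n).comp continuous_snd)
      ((continuous_apply _).comp continuous_fst)

theorem cst_eqM_iff (x y : ℕ → Bool) : EqM x y ↔ ∃ p, (x, y) ∈ CstRel p := by
  constructor
  · rintro ⟨⟨r, hr, h1⟩, ⟨s, hs, h2⟩⟩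
    exact ⟨(⟨r, hr⟩, ⟨s, hs⟩), fun n => ⟨h1 n, h2 n⟩⟩
  · rintro ⟨p, hp⟩
    exact ⟨⟨p.1.1, p.1.2, fun n => (hp n).1⟩, ⟨p.2.1, p.2.2, fun n => (hp n).2⟩⟩

theorem pf_CST : T_CST := by
  intro f hinv y hy hfy c hc
  have hE := cst_eqM_equivalence
  have hjc : Continuous (fun v : ℕ → Bool => join v c) :=
    continuous_join.comp (Continuous.prodMk continuous_id continuous_const)
  have hF : Continuous (fun v : ℕ → Bool => f (y (join v c))) := hfy.comp hjc
  have hT : ∀ v : ℕ → Bool, EqT (y (join v c)) (join v c) := hc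
  have h1 : ∀ u v, EqM (f (y (join u c))) (f (y (join v c))) := by
    refine core EqM hE CstRel cst_isClosed_rel cst_eqM_iff c (fun v => f (y (join v c))) hF ?_
    intro u v huv
    refine hinv _ _ ⟨?_, ?_⟩
    · exact leT_trans (hT u).1 (leT_trans huv.1 (hT v).2)
    · exact leT_trans (hT v).1 (leT_trans huv.2 (hT u).2)
  have h2 : ∀ u, LeT c u → EqM (f u) (f (y (join u c))) := by
    intro u hu
    have ha : LeT u (join u c) := leT_iff.2 (rc_left (rc_self (join u c)))
    have hb : LeT (join u c) u := leT_iff.2 (rc_join (rc_self u) (leT_iff.1 hu))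
    exact hinv _ _ ⟨leT_trans ha (hT u).2, leT_trans (hT u).1 hb⟩
  intro u v hu hv
  exact hE.trans (h2 u hu) (hE.trans (h1 u v) (hE.symm (h2 v hv)))

end Pool.Agent.H54.LUD
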