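import Pool.Agent.H76.LUD.Targets

/-!
# The shift of the second coordinate is computable
-/

set_option autoImplicit false

namespace Pool.Agent.H54.LUD

open Pool.Agent.H69 Pool.Agent.H81.TM Pool.Agent.H76.LUD

theorem msh_get (X : ℕ → Bool) (i : ℕ) (v : Bool) (h : X i = v) :
    ∃ t, (pre X t)[i]? = some v ∧ ∀ s < t, (pre X s)[i]? = none := by
  refine ⟨i + 1, ?_, ?_⟩
  · rw [pre_getElem? X (Nat.lt_succ_self i), h]
  · intro s hs
    rw [List.getElem?_eq_none]
    rw [pre_length]
    omega

/-- The shift of the odd places. -/
def mshG (l : List Bool) (n : ℕ) : Option Bool :=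
  if n = 1 then some false else if n % 2 = 0 then l[n]? else l[n - 2]?

/-- The inverse of the shift. -/
def mshH (l : List Bool) (n : ℕ) : Option Bool :=
  if n % 2 = 0 then l[n]? else l[n + 2]?

theorem msh_par : PrimrecPred (fun p : List Bool × ℕ => p.2 % 2 = 0) :=
  Primrec.eq.comp (Primrec.nat_mod.comp Primrec.snd (Primrec.const 2)) (Primrec.const 0)

theorem mshG_comp : Computable₂ mshG := by
  have h1 : PrimrecPred (fun p : List Bool × ℕ => p.2 = 1) :=
    Primrec.eq.comp Primrec.snd (Primrec.const 1)
  have h2 : Primrec (fun p : List Bool × ℕ => p.1[p.2]?) :=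
    Primrec.list_getElem?.comp Primrec.fst Primrec.snd
  have h3 : Primrec (fun p : List Bool × ℕ => p.1[p.2 - 2]?) :=
    Primrec.list_getElem?.comp Primrec.fst
      (Primrec.nat_sub.comp Primrec.snd (Primrec.const 2))
  exact (Primrec.ite h1 (Primrec.const (some false)) (Primrec.ite msh_par h2 h3)).to_comp

theorem mshH_comp : Computable₂ mshH := by
  have h2 : Primrec (fun p : List Bool × ℕ => p.1[p.2]?) :=
    Primrec.list_getElem?.comp Primrec.fst Primrec.snd
  have h3 : Primrec (fun p : List Bool × ℕ => p.1[p.2 + 2]?) :=
    Primrec.list_getElem?.comp Primrec.fst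
      (Primrec.nat_add.comp Primrec.snd (Primrec.const 2))
  exact (Primrec.ite msh_par h2 h3).to_comp

theorem pf_MSH : T_MSH := by
  refine ⟨mshG, mshH, mshG_comp, mshH_comp, ?_⟩
  intro X m
  constructor
  · intro n
    by_cases h1 : n = 1
    · subst h1
      refine ⟨0, ?_, fun s hs => absurd hs (Nat.not_lt_zero s)⟩
      simp [mshG, join, cs]
    · by_cases h2 : n % 2 = 0
      · have e : ∀ l, mshG l n = l[n]? := by
          intro l
          unfold mshG
          rw [if_neg h1, if_pos h2]
        simp only [e]
        apply msh_get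
        simp [join, h2]
      · have e : ∀ l, mshG l n = l[n - 2]? := by
          intro l
          unfold mshG
          rw [if_neg h1, if_neg h2]
        simp only [e]
        apply msh_get
        have h3 : ¬ (n - 2) % 2 = 0 := by omega
        have h4 : ¬ n / 2 = 0 := by omega
        have h5 : (n - 2) / 2 = n / 2 - 1 := by omega
        simp only [join, if_neg h2, if_neg h3, cs, if_neg h4, h5]
  · intro n
    by_cases h2 : n % 2 = 0
    · have e : ∀ l, mshH l n = l[n]? := by
        intro l
        unfold mshH
        rw [if_pos h2]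
      simp only [e]
      apply msh_get
      simp [join, h2]
    · have e : ∀ l, mshH l n = l[n + 2]? := by
        intro l
        unfold mshH
        rw [if_neg h2]
      simp only [e]
      apply msh_get
      have h3 : ¬ (n + 2) % 2 = 0 := by omega
      have h4 : ¬ (n + 2) / 2 = 0 := by omega
      have h5 : (n + 2) / 2 - 1 = n / 2 := by omega
      simp only [join, if_neg h2, if_neg h3, cs, if_neg h4, h5]

end Pool.Agent.H54.LUD
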